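import Pool.Agent.K3h47.TW.Stm

/-! Brick DAT of the project TW: the arithmetic of the classes of a cover. -/

set_option autoImplicit false

namespace Pool.Agent.K3h12.TW

open MvPolynomial Pool.Agent.K3h47 Pool.Agent.K3h47.TW

section
variable {σ : Type} [Fintype σ] {C : Cone σ} {r n : ℕ}

/-- an additive function on the characters which kills `C.R` and the relations kills `D.R` -/
theorem kill (D : Cover C r n) (L : (σ ⊕ Fin r → ℤ) →+ ℚ)
    (h1 : ∀ ρ ∈ C.R, L (Sum.elim ρ 0) = 0)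
    (h2 : ∀ i, L (Sum.elim (-(D.d i)) (Pi.single i (D.e i : ℤ))) = 0) :
    ∀ ρ ∈ D.R, L ρ = 0 := by
  classical
  intro ρ hρ
  have he : ∀ i, D.e i ≠ 0 := fun i => by have := D.two i; omega
  obtain ⟨E, hE⟩ : ∃ E : ℕ, E = ∏ i, D.e i := ⟨_, rfl⟩
  have hE0 : E ≠ 0 := by
    rw [hE]
    exact Finset.prod_ne_zero_iff.2 fun i _ => he i
  have hdvd : ∀ i, D.e i ∣ E := fun i => by
    rw [hE]
    exact Finset.dvd_prod_of_mem D.e (Finset.mem_univ i)
  choose W hW using hdvd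
  obtain ⟨τ, hτ⟩ : ∃ τ : σ ⊕ Fin r → ℤ, τ = E • ρ - ∑ i, (ρ (Sum.inr i) * (W i : ℤ)) •
      (Sum.elim (-(D.d i)) (Pi.single i (D.e i : ℤ)) : σ ⊕ Fin r → ℤ) := ⟨_, rfl⟩
  have hτR : τ ∈ D.R := by
    rw [hτ]
    exact D.R.sub_mem (D.R.nsmul_mem hρ E) (D.R.sum_mem fun i _ => D.R.zsmul_mem (D.rel i) _)
  have hτ0 : ∀ j, τ (Sum.inr j) = 0 := by
    intro j
    rw [hτ, Pi.sub_apply, Pi.smul_apply, Finset.sum_apply, Finset.sum_eq_single j]
    · rw [Pi.smul_apply, Sum.elim_inr, Pi.single_eq_same, smul_eq_mul, nsmul_eq_mul, hW j]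
      push_cast
      ring
    · intro b _ hb
      rw [Pi.smul_apply, Sum.elim_inr, Pi.single_eq_of_ne hb.symm, smul_zero]
    · intro h
      exact absurd (Finset.mem_univ j) h
  have hτe : τ = Sum.elim (fun s => τ (Sum.inl s)) 0 := by
    funext x
    rcases x with s | j
    · rfl
    · exact hτ0 j
  have hL : L τ = 0 := by
    rw [hτe]
    refine h1 _ ((D.res _).1 ?_)
    rw [← hτe]
    exact hτR
  have hL2 : L τ = E * L ρ := by
    rw [hτ, map_sub, map_sum, map_nsmul, nsmul_eq_mul]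
    rw [Finset.sum_eq_zero fun i _ => by rw [map_zsmul, h2 i, smul_zero], sub_zero]
  rw [hL2] at hL
  rcases mul_eq_zero.1 hL with h | h
  · exact absurd (by exact_mod_cast h) hE0
  · exact h

theorem degree_add (C : Cone σ) (a b : σ → ℤ) : C.degree (a + b) = C.degree a + C.degree b := by
  unfold Cone.degree
  rw [← Finset.sum_add_distrib]
  refine Finset.sum_congr rfl fun i _ => ?_
  rw [Pi.add_apply]
  push_cast
  ring

theorem omega_add (C : Cone σ) (a b : σ → ℤ) : C.omega (a + b) = C.omega a + C.omega b := by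
  unfold Cone.omega
  rw [← Finset.sum_add_distrib]
  refine Finset.sum_congr rfl fun i _ => ?_
  rw [Pi.add_apply]
  ring

theorem degree_neg (C : Cone σ) (a : σ → ℤ) : C.degree (-a) = -C.degree a := by
  unfold Cone.degree
  rw [← Finset.sum_neg_distrib]
  refine Finset.sum_congr rfl fun i _ => ?_
  rw [Pi.neg_apply]
  push_cast
  ring

theorem omega_neg (C : Cone σ) (a : σ → ℤ) : C.omega (-a) = -C.omega a := by
  unfold Cone.omega
  rw [← Finset.sum_neg_distrib]
  refine Finset.sum_congr rfl fun i _ => ?_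
  rw [Pi.neg_apply]
  ring

theorem cone_degree (D : Cover C r n) (ρ : σ ⊕ Fin r → ℤ) :
    D.cone.degree ρ = C.degree (fun s => ρ (Sum.inl s)) +
      ∑ i, (ρ (Sum.inr i) : ℚ) * (C.degree (D.d i) / D.e i) := by
  unfold Cone.degree
  rw [Fintype.sum_sum_type]
  rfl

theorem cone_omega (D : Cover C r n) (ρ : σ ⊕ Fin r → ℤ) :
    D.cone.omega ρ = C.omega (fun s => ρ (Sum.inl s)) := by
  unfold Cone.omega
  rw [Fintype.sum_sum_type]
  have h : ∑ i : Fin r, ρ (Sum.inr i) * D.cone.om (Sum.inr i) = 0 :=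
    Finset.sum_eq_zero fun i _ => by
      show ρ (Sum.inr i) * (0 : ℤ) = 0
      rw [mul_zero]
  rw [h, add_zero]
  rfl

theorem single_sum (D : Cover C r n) (i : Fin r) (f : Fin r → ℚ) :
    ∑ j, (((Pi.single i (D.e i : ℤ) : Fin r → ℤ) j : ℤ) : ℚ) * f j = D.e i * f i := by
  classical
  rw [Finset.sum_eq_single i]
  · rw [Pi.single_eq_same]
    push_cast
    rfl
  · intro b _ hb
    rw [Pi.single_eq_of_ne hb, Int.cast_zero, zero_mul]
  · intro h
    exact absurd (Finset.mem_univ i) h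

theorem cone_degR (D : Cover C r n) (h : ∀ ρ ∈ C.R, C.degree ρ = 0) :
    ∀ ρ ∈ D.R, D.cone.degree ρ = 0 := by
  refine kill D (AddMonoidHom.mk' D.cone.degree (degree_add D.cone)) (fun ρ hρ => ?_)
    (fun i => ?_)
  · show D.cone.degree (Sum.elim ρ 0) = 0
    rw [cone_degree]
    have e : (fun s => (Sum.elim ρ 0 : σ ⊕ Fin r → ℤ) (Sum.inl s)) = ρ := rfl
    rw [e, h ρ hρ, zero_add]
    refine Finset.sum_eq_zero fun i _ => ?_
    show ((0 : ℤ) : ℚ) * _ = 0
    rw [Int.cast_zero, zero_mul]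
  · show D.cone.degree _ = 0
    rw [cone_degree]
    have e : (fun s => (Sum.elim (-(D.d i)) (Pi.single i (D.e i : ℤ)) : σ ⊕ Fin r → ℤ)
      (Sum.inl s)) = -(D.d i) := rfl
    have e2 : ∀ j, (Sum.elim (-(D.d i)) (Pi.single i (D.e i : ℤ)) : σ ⊕ Fin r → ℤ) (Sum.inr j) =
      (Pi.single i (D.e i : ℤ) : Fin r → ℤ) j := fun _ => rfl
    rw [e, degree_neg]
    simp only [e2]
    rw [single_sum]
    have he : (D.e i : ℚ) ≠ 0 := by
      have := D.two i
      exact_mod_cast (by omega : D.e i ≠ 0)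
    field_simp
    ring

theorem cone_omR (D : Cover C r n) (h : ∀ ρ ∈ C.R, C.omega ρ = 0) :
    ∀ ρ ∈ D.R, D.cone.omega ρ = 0 := by
  intro ρ hρ
  have h1 := kill D (AddMonoidHom.mk' (fun ρ => ((D.cone.omega ρ : ℤ) : ℚ)) (fun a b => by
    rw [omega_add]; push_cast; rfl)) (fun ρ hρ => ?_) (fun i => ?_) ρ hρ
  · have h2 : ((D.cone.omega ρ : ℤ) : ℚ) = 0 := h1
    exact_mod_cast h2
  · show ((D.cone.omega (Sum.elim ρ 0) : ℤ) : ℚ) = 0
    rw [cone_omega]
    have e : (fun s => (Sum.elim ρ 0 : σ ⊕ Fin r → ℤ) (Sum.inl s)) = ρ := rfl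
    rw [e, h ρ hρ, Int.cast_zero]
  · show ((D.cone.omega _ : ℤ) : ℚ) = 0
    rw [cone_omega]
    have e : (fun s => (Sum.elim (-(D.d i)) (Pi.single i (D.e i : ℤ)) : σ ⊕ Fin r → ℤ)
      (Sum.inl s)) = -(D.d i) := rfl
    rw [e, omega_neg, D.om i, neg_zero, Int.cast_zero]

/-- the degrees times `M` are integers -/
theorem exists_int (C : Cone σ) {M : ℕ} (hM : ∀ i, ∃ q : ℤ, (M : ℚ) * C.deg i = q)
    (c : σ → ℤ) : ∃ m : ℤ, (M : ℚ) * C.degree c = m := by
  choose q hq using hM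
  refine ⟨∑ i, c i * q i, ?_⟩
  unfold Cone.degree
  rw [Finset.mul_sum]
  push_cast
  refine Finset.sum_congr rfl fun i _ => ?_
  rw [← hq i]
  ring

end

theorem t_DAT : S_DAT := by
  classical
  intro σ _ C r n D M hM0 hdR homR hM
  refine ⟨cone_degR D hdR, cone_omR D homR, ?_⟩
  have hMpos : (0 : ℚ) < M := by
    have : 0 < M := Nat.pos_of_ne_zero hM0
    exact_mod_cast this
  have hδ : ∀ i, ∃ δ : ℕ, (δ : ℚ) = M * C.degree (D.d i) := by
    intro i
    obtain ⟨m, hm⟩ := exists_int C hM (D.d i)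
    have hpos : (0 : ℚ) < m := by
      rw [← hm]
      exact mul_pos hMpos (D.pos i)
    have hpos' : 0 < m := by exact_mod_cast hpos
    refine ⟨m.toNat, ?_⟩
    rw [hm]
    have h2 : ((m.toNat : ℤ) : ℚ) = (m : ℚ) := by rw [Int.toNat_of_nonneg hpos'.le]
    exact_mod_cast h2
  choose δ hδ using hδ
  have he : ∀ i, D.e i ≠ 0 := fun i => by have := D.two i; omega
  refine ⟨δ, hδ, ?_, D.two, ?_, ?_, ?_⟩
  · intro i
    have h1 : (0 : ℚ) < δ i := by
      rw [hδ i]
      exact mul_pos hMpos (D.pos i)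
    exact_mod_cast h1
  · intro i
    refine ⟨_, D.rel i, ?_, rfl⟩
    have e : (fun s => (Sum.elim (-(D.d i)) (Pi.single i (D.e i : ℤ)) : σ ⊕ Fin r → ℤ)
      (Sum.inl s)) = -(D.d i) := rfl
    rw [e, degree_neg, mul_neg, ← hδ i]
    push_cast
    rfl
  · rintro x ⟨ρ, hρ, h1, h2⟩
    have h3 := cone_degR D hdR ρ hρ
    rw [cone_degree] at h3
    have h4 : ∀ i, x.2 i = ρ (Sum.inr i) := fun i => (congrFun h2 i).symm
    rw [← h1]
    have h5 : ∑ i, (x.2 i : ℚ) * ((δ i : ℚ) / D.e i) =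
        M * ∑ i, (ρ (Sum.inr i) : ℚ) * (C.degree (D.d i) / D.e i) := by
      rw [Finset.mul_sum]
      refine Finset.sum_congr rfl fun i _ => ?_
      rw [h4 i, hδ i]
      ring
    rw [h5, ← mul_add, h3, mul_zero]
  · intro I hI
    refine FU.sur_of_free he I fun t ht hchi => ?_
    obtain ⟨p, hp, hpI⟩ := D.meet I hI
    have hz : ∀ i, ∃ z : ℂ, z ^ D.e i = eval p (D.F i) := fun i =>
      IsAlgClosed.exists_pow_nat_eq _ (Nat.pos_of_ne_zero (he i))
    choose z hz using hz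
    have h := D.free p hp z hz (Sum.elim 1 t) ?_ (fun i => by simp) ?_
    · intro i
      exact congrFun h (Sum.inr i)
    · intro ρ hρ
      obtain ⟨m, hm⟩ := exists_int C hM (fun s => ρ (Sum.inl s))
      have h1 := hchi (m, fun i => ρ (Sum.inr i)) ⟨ρ, hρ, hm, rfl⟩
      unfold FU.chi at h1
      rw [one_zpow, one_mul] at h1
      unfold character
      rw [Fintype.prod_sum_type]
      have h2 : ∏ s : σ, (Sum.elim 1 t : σ ⊕ Fin r → ℂˣ) (Sum.inl s) ^ ρ (Sum.inl s) = 1 :=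
        Finset.prod_eq_one fun s _ => by
          rw [Sum.elim_inl, Pi.one_apply, one_zpow]
      rw [h2, one_mul]
      exact h1
    · intro i
      by_cases hi : i ∈ I
      · have h1 : z i = 0 := by
          have h2 := hz i
          rw [hpI i hi] at h2
          exact pow_eq_zero_iff (he i) |>.1 h2
        rw [h1, mul_zero]
      · rw [Sum.elim_inr, ht i hi, Units.val_one, one_mul]

end Pool.Agent.K3h12.TW
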